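import Mathlib

set_option autoImplicit false

/-!
# A spectrally arbitrary sign pattern with a superpattern that is not spectrally arbitrary

`S` is the direct sum of the patterns `M₄` (order 4, not spectrally arbitrary) and `T₂`; it is
spectrally arbitrary.  `S'` is obtained from `S` by changing the zero entry in row 1, column 4
into a plus sign.  No realization of `S'` has characteristic polynomial `x⁴ (x² + 1)`.
-/

namespace Pool.Agent.Results.MP_557f7f_co.SpectralSuperpattern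

open Polynomial Matrix

/-- `A` is a realization of the sign pattern `S`. -/
def Realizes {n : ℕ} (A : Matrix (Fin n) (Fin n) ℝ) (S : Matrix (Fin n) (Fin n) SignType) : Prop :=
  ∀ i j, SignType.sign (A i j) = S i j

/-- The sign pattern `S` is spectrally arbitrary: every monic real polynomial of degree `n` is the
characteristic polynomial of a realization of `S`. -/
def SpectrallyArbitrary {n : ℕ} (S : Matrix (Fin n) (Fin n) SignType) : Prop :=
  ∀ p : ℝ[X], p.Monic → p.natDegree = n →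
    ∃ A : Matrix (Fin n) (Fin n) ℝ, Realizes A S ∧ A.charpoly = p

/-- `S'` is a superpattern of `S`: it agrees with `S` at every nonzero entry of `S`. -/
def IsSuperpattern {n : ℕ} (S' S : Matrix (Fin n) (Fin n) SignType) : Prop :=
  ∀ i j, S i j ≠ 0 → S' i j = S i j

/-- The pattern `M₄ ⊕ T₂`. -/
def S : Matrix (Fin 6) (Fin 6) SignType :=
  !![1, 1, -1, 0, 0, 0;
     -1, -1, 1, 0, 0, 0;
     0, 0, 0, -1, 0, 0;
     1, 1, 0, 0, 0, 0;
     0, 0, 0, 0, 1, 1;
     0, 0, 0, 0, -1, -1]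

/-- The superpattern: the entry in row 1, column 4 is now `+`. -/
def S' : Matrix (Fin 6) (Fin 6) SignType :=
  !![1, 1, -1, 1, 0, 0;
     -1, -1, 1, 0, 0, 0;
     0, 0, 0, -1, 0, 0;
     1, 1, 0, 0, 0, 0;
     0, 0, 0, 0, 1, 1;
     0, 0, 0, 0, -1, -1]

/-- The pattern `M₄`. -/
def M4 : Matrix (Fin 4) (Fin 4) SignType :=
  !![1, 1, -1, 0;
     -1, -1, 1, 0;
     0, 0, 0, -1;
     1, 1, 0, 0]

/-- The pattern `T₂`. -/
def T2 : Matrix (Fin 2) (Fin 2) SignType := !![1, 1; -1, -1]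

theorem charpoly4 (a b c d e f g h k z : ℝ) :
    (!![a, b, -c, z; -d, -e, f, 0; 0, 0, 0, -g; h, k, 0, 0] :
      Matrix (Fin 4) (Fin 4) ℝ).charpoly =
      X ^ 4 + C (-(a - e)) * X ^ 3 + C (b * d - a * e - z * h) * X ^ 2 +
        C (-(g * (c * h - f * k) + z * (e * h - d * k))) * X +
        C (g * (f * (b * h - a * k) + c * (d * k - e * h))) := by
  have h1 : charmatrix (!![a, b, -c, z; -d, -e, f, 0; 0, 0, 0, -g; h, k, 0, 0] :
      Matrix (Fin 4) (Fin 4) ℝ) =
      !![X - C a, -C b, C c, -C z; C d, X + C e, -C f, 0; 0, 0, X, C g; -C h, -C k, 0, X] := by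
    ext i j : 2
    fin_cases i <;> fin_cases j <;> simp
  rw [Matrix.charpoly, h1, Matrix.det_succ_row_zero]
  simp [Fin.sum_univ_succ, Matrix.det_fin_three, Fin.succAbove]
  ring

theorem charpoly2 (a b c d : ℝ) :
    (!![a, b; c, d] : Matrix (Fin 2) (Fin 2) ℝ).charpoly =
      X ^ 2 + C (-(a + d)) * X + C (a * d - b * c) := by
  rw [Matrix.charpoly_fin_two]
  simp [Matrix.trace_fin_two, Matrix.det_fin_two]
  ring

/-- Nine positive numbers give a realization of `M₄`. -/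
theorem realizes_M4 {a b c d e f h k : ℝ} (ha : 0 < a) (hb : 0 < b) (hc : 0 < c) (hd : 0 < d)
    (he : 0 < e) (hf : 0 < f) (hh : 0 < h) (hk : 0 < k) :
    Realizes (!![a, b, -c, 0; -d, -e, f, 0; 0, 0, 0, -1; h, k, 0, 0] :
      Matrix (Fin 4) (Fin 4) ℝ) M4 := by
  have h1 : (0 : ℝ) < 1 := one_pos
  intro i j
  fin_cases i <;> fin_cases j
  · exact sign_pos ha
  · exact sign_pos hb
  · exact sign_neg (neg_neg_of_pos hc)
  · exact sign_zero
  · exact sign_neg (neg_neg_of_pos hd)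
  · exact sign_neg (neg_neg_of_pos he)
  · exact sign_pos hf
  · exact sign_zero
  · exact sign_zero
  · exact sign_zero
  · exact sign_zero
  · exact sign_neg (neg_neg_of_pos h1)
  · exact sign_pos hh
  · exact sign_pos hk
  · exact sign_zero
  · exact sign_zero

/-- The numerical conditions for `M₄` to realize `x⁴ - s x³ + t x² - u x + v`. -/
theorem exists_M4 {s t u v : ℝ} {a b c d e f h k : ℝ} (ha : 0 < a) (hb : 0 < b) (hc : 0 < c)
    (hd : 0 < d) (he : 0 < e) (hf : 0 < f) (hh : 0 < h) (hk : 0 < k) (h1 : a - e = s)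
    (h2 : b * d - a * e = t) (h3 : c * h - f * k = u)
    (h4 : f * (b * h - a * k) + c * (d * k - e * h) = v) :
    ∃ A : Matrix (Fin 4) (Fin 4) ℝ, Realizes A M4 ∧
      A.charpoly = X ^ 4 + C (-s) * X ^ 3 + C t * X ^ 2 + C (-u) * X + C v := by
  refine ⟨_, realizes_M4 ha hb hc hd he hf hh hk, ?_⟩
  rw [charpoly4, ← h1, ← h2, ← h3, ← h4]
  simp

theorem M4_pos (s t u v : ℝ) (hu : 0 < u) :
    ∃ A : Matrix (Fin 4) (Fin 4) ℝ, Realizes A M4 ∧
      A.charpoly = X ^ 4 + C (-s) * X ^ 3 + C t * X ^ 2 + C (-u) * X + C v := by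
  set D : ℝ := |s| + |t| + 1 + |v| / u with hD
  have hv0 : 0 ≤ |v| / u := div_nonneg (abs_nonneg _) hu.le
  have hs0 := abs_nonneg s
  have ht0 := abs_nonneg t
  have hs1 := neg_abs_le s
  have hs2 := le_abs_self s
  have ht1 := neg_abs_le t
  have hD1 : 1 ≤ D := by rw [hD]; linarith
  have hDv : 0 < v + D * u := by
    have h1 : |v| / u * u = |v| := div_mul_cancel₀ _ hu.ne'
    have h2 : D * u = (|s| + |t| + 1) * u + |v| := by rw [hD, add_mul _ (|v| / u), h1]
    have h3 : 0 < (|s| + |t| + 1) * u := by positivity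
    have h4 := neg_abs_le v
    linarith
  have hPhi : 0 < t + D * s + D ^ 2 := by
    have h1 : |t| + 1 ≤ D + s := by rw [hD]; linarith
    have h2 : D + s ≤ D * (D + s) := by nlinarith
    nlinarith
  set e : ℝ := D + |s| + |t| + 1 with he
  set a : ℝ := e + s with ha
  set d : ℝ := e - D with hd
  have hd1 : 0 < d := by rw [hd, he]; linarith
  have he1 : 1 ≤ e := by rw [he]; linarith
  have ha1 : |t| + 1 ≤ a := by rw [ha, he]; linarith
  have hae : 0 < t + a * e := by nlinarith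
  set b : ℝ := (t + a * e) / d with hb
  have hb1 : 0 < b := div_pos hae hd1
  have hbd : b * d = t + a * e := div_mul_cancel₀ _ hd1.ne'
  set P : ℝ := (t + D * s + D ^ 2) / d with hP
  have hP1 : 0 < P := div_pos hPhi hd1
  have hPd : P * d = t + D * s + D ^ 2 := div_mul_cancel₀ _ hd1.ne'
  have hbaP : b - a = D + P := by
    have : (b - a - D - P) * d = 0 := by
      have h1 : (b - a - D - P) * d = b * d - a * d - D * d - P * d := by ring
      rw [h1, hbd, hPd, ha, hd]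
      ring
    have := (mul_eq_zero.mp this).resolve_right hd1.ne'
    linarith
  have hc1 : 0 < (u * (D + P) + v) / P := by
    apply div_pos _ hP1
    nlinarith
  have hf1 : 0 < (v + D * u) / P := div_pos hDv hP1
  refine exists_M4 (a := a) (b := b) (c := (u * (D + P) + v) / P) (d := d) (e := e)
    (f := (v + D * u) / P) (h := 1) (k := 1) (by linarith) hb1 hc1 hd1 (by linarith) hf1
    one_pos one_pos (by rw [ha]; ring) (by rw [hbd]; ring) ?_ ?_
  · field_simp
    ring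
  · have h1 : b * 1 - a * 1 = D + P := by linarith
    have h2 : d * 1 - e * 1 = -D := by rw [hd]; ring
    rw [h1, h2]
    field_simp
    ring

theorem M4_neg (s t u v : ℝ) (hu : u < 0) :
    ∃ A : Matrix (Fin 4) (Fin 4) ℝ, Realizes A M4 ∧
      A.charpoly = X ^ 4 + C (-s) * X ^ 3 + C t * X ^ 2 + C (-u) * X + C v := by
  set w : ℝ := -u with hw
  have hw0 : 0 < w := by rw [hw]; linarith
  have huw : u = -w := by rw [hw]; ring
  set D : ℝ := |s| + |t| + 1 + |v| / w with hD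
  have hv0 : 0 ≤ |v| / w := div_nonneg (abs_nonneg _) hw0.le
  have hs0 := abs_nonneg s
  have ht0 := abs_nonneg t
  have hs1 := neg_abs_le s
  have hs2 := le_abs_self s
  have ht1 := neg_abs_le t
  have hD1 : 1 ≤ D := by rw [hD]; linarith
  have hDv : 0 < v + D * w := by
    have h1 : |v| / w * w = |v| := div_mul_cancel₀ _ hw0.ne'
    have h2 : D * w = (|s| + |t| + 1) * w + |v| := by rw [hD, add_mul _ (|v| / w), h1]
    have h3 : 0 < (|s| + |t| + 1) * w := by positivity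
    have h4 := neg_abs_le v
    linarith
  have hPhi : 0 < t - D * s + D ^ 2 := by
    have h1 : |t| + 1 ≤ D - s := by rw [hD]; linarith
    have h2 : D - s ≤ D * (D - s) := by nlinarith
    nlinarith
  set e : ℝ := D + |s| + |t| + 1 + |s| with he
  set a : ℝ := e + s with ha
  set b : ℝ := a - D with hb
  have hb1 : 0 < b := by rw [hb, ha, he]; linarith
  have he1 : 1 ≤ e := by rw [he]; linarith
  have ha1 : |t| + 1 ≤ a := by rw [ha, he]; linarith
  have hae : 0 < t + a * e := by nlinarith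
  set d : ℝ := (t + a * e) / b with hd
  have hd1 : 0 < d := div_pos hae hb1
  have hbd : b * d = t + a * e := by rw [hd]; exact mul_div_cancel₀ _ hb1.ne'
  set P : ℝ := (t - D * s + D ^ 2) / b with hP
  have hP1 : 0 < P := div_pos hPhi hb1
  have hPb : P * b = t - D * s + D ^ 2 := div_mul_cancel₀ _ hb1.ne'
  have hdeP : d - e = D + P := by
    have : (d - e - D - P) * b = 0 := by
      have h1 : (d - e - D - P) * b = b * d - e * b - D * b - P * b := by ring
      rw [h1, hbd, hPb, hb, ha]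
      ring
    have := (mul_eq_zero.mp this).resolve_right hb1.ne'
    linarith
  have hf1 : 0 < (w * (D + P) + v) / P := by
    apply div_pos _ hP1
    nlinarith
  have hc1 : 0 < (v + D * w) / P := div_pos hDv hP1
  refine exists_M4 (a := a) (b := b) (c := (v + D * w) / P) (d := d) (e := e)
    (f := (w * (D + P) + v) / P) (h := 1) (k := 1) (by linarith) hb1 hc1 hd1 (by linarith) hf1
    one_pos one_pos (by rw [ha]; ring) (by rw [hbd]; ring) ?_ ?_
  · rw [huw]
    field_simp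
    ring
  · have h1 : b * 1 - a * 1 = -D := by rw [hb]; ring
    have h2 : d * 1 - e * 1 = D + P := by linarith
    rw [h1, h2]
    field_simp
    ring

/-- The case `u = 0`: it is enough that the form `b h² - (a + e) h k + d k²` at `h = k = 1` is a
positive multiple of `v`. -/
theorem M4_zero_aux (s t v : ℝ) {a b d e L : ℝ} (ha : 0 < a) (hb : 0 < b)
    (hd : 0 < d) (he : 0 < e) (hL : 0 < L) (h1 : a - e = s) (h2 : b * d - a * e = t)
    (h3 : L * (b + d - a - e) = v) :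
    ∃ A : Matrix (Fin 4) (Fin 4) ℝ, Realizes A M4 ∧
      A.charpoly = X ^ 4 + C (-s) * X ^ 3 + C t * X ^ 2 + C (-0) * X + C v := by
  refine exists_M4 (a := a) (b := b) (c := L) (d := d) (e := e) (f := L) (h := 1) (k := 1)
    ha hb hL hd he hL one_pos one_pos h1 h2 (by ring) ?_
  rw [← h3]
  ring

theorem M4_zero (s t v : ℝ)
    (h : 0 < v ∨ (v < 0 ∧ 4 * t < s ^ 2) ∨ (v = 0 ∧ 4 * t ≤ s ^ 2)) :
    ∃ A : Matrix (Fin 4) (Fin 4) ℝ, Realizes A M4 ∧
      A.charpoly = X ^ 4 + C (-s) * X ^ 3 + C t * X ^ 2 + C (-0) * X + C v := by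
  have hs0 := abs_nonneg s
  have ht0 := abs_nonneg t
  have hs1 := neg_abs_le s
  have hs2 := le_abs_self s
  have ht1 := neg_abs_le t
  set e : ℝ := |s| + |t| + 1 with he
  set a : ℝ := e + s with ha
  have he1 : 1 ≤ e := by rw [he]; linarith
  have ha1 : |t| + 1 ≤ a := by rw [ha, he]; linarith
  have hae : 0 < t + a * e := by nlinarith
  have ha0 : 0 < a := by linarith
  have he0 : 0 < e := by linarith
  have has : a - e = s := by rw [ha]; ring
  rcases h with hv | ⟨hv, ht⟩ | ⟨hv, ht⟩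
  · -- `b` large
    have hb1 : 0 < a + e := by linarith
    have hd1 : 0 < (t + a * e) / (a + e) := div_pos hae hb1
    refine M4_zero_aux s t v (a := a) (b := a + e) (d := (t + a * e) / (a + e)) (e := e)
      (L := v / ((t + a * e) / (a + e))) ha0 hb1 hd1 he0 (div_pos hv hd1) has ?_ ?_
    · rw [mul_div_cancel₀ _ hb1.ne']
      ring
    · have : a + e + (t + a * e) / (a + e) - a - e = (t + a * e) / (a + e) := by ring
      rw [this, div_mul_cancel₀ _ hd1.ne']
  · have hb1 : 0 < (a + e) / 2 := by linarith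
    have hd1 : 0 < (t + a * e) / ((a + e) / 2) := div_pos hae hb1
    have hF : (a + e) / 2 + (t + a * e) / ((a + e) / 2) - a - e < 0 := by
      have h1 : (a + e) / 2 + (t + a * e) / ((a + e) / 2) - a - e =
          (4 * t - s ^ 2) / (2 * (a + e)) := by
        rw [← has]
        field_simp
        ring
      rw [h1]
      exact div_neg_of_neg_of_pos (by linarith) (by linarith)
    refine M4_zero_aux s t v (a := a) (b := (a + e) / 2) (d := (t + a * e) / ((a + e) / 2))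
      (e := e) (L := v / ((a + e) / 2 + (t + a * e) / ((a + e) / 2) - a - e)) ha0 hb1 hd1 he0
      (div_pos_of_neg_of_neg hv hF) has ?_ ?_
    · rw [mul_div_cancel₀ _ hb1.ne']
      ring
    · rw [div_mul_cancel₀ _ hF.ne]
  · have hr0 : 0 ≤ Real.sqrt (s ^ 2 - 4 * t) := Real.sqrt_nonneg _
    have hr : Real.sqrt (s ^ 2 - 4 * t) ^ 2 = s ^ 2 - 4 * t := Real.sq_sqrt (by linarith)
    set r : ℝ := Real.sqrt (s ^ 2 - 4 * t) with hr'
    have hb1 : 0 < (a + e + r) / 2 := by linarith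
    have hbd : (a + e + r) / 2 * ((a + e - r) / 2) = t + a * e := by
      have : (a + e + r) / 2 * ((a + e - r) / 2) = ((a + e) ^ 2 - r ^ 2) / 4 := by ring
      rw [this, hr, ← has]
      ring
    have hd1 : 0 < (a + e - r) / 2 := by
      by_contra hcon
      push Not at hcon
      have := mul_nonpos_of_nonneg_of_nonpos hb1.le hcon
      linarith
    refine M4_zero_aux s t v (a := a) (b := (a + e + r) / 2) (d := (a + e - r) / 2) (e := e)
      (L := 1) ha0 hb1 hd1 he0 one_pos has ?_ ?_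
    · rw [hbd]
      ring
    · rw [hv]
      ring

/-- `M₄` realizes `x⁴ + α x³ + β x² + γ x + δ` unless `γ = 0`, `α² ≤ 4β`, `δ ≤ 0` and not both
`α² = 4β` and `δ = 0`. -/
theorem realize_M4 (α β γ δ : ℝ)
    (h : γ ≠ 0 ∨ 0 < δ ∨ (δ < 0 ∧ 4 * β < α ^ 2) ∨ (δ = 0 ∧ 4 * β ≤ α ^ 2)) :
    ∃ A : Matrix (Fin 4) (Fin 4) ℝ, Realizes A M4 ∧
      A.charpoly = X ^ 4 + C α * X ^ 3 + C β * X ^ 2 + C γ * X + C δ := by
  rcases lt_trichotomy γ 0 with hγ | hγ | hγ
  · obtain ⟨A, h1, h2⟩ := M4_pos (-α) β (-γ) δ (by linarith)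
    rw [neg_neg, neg_neg] at h2
    exact ⟨A, h1, h2⟩
  · have h' : 0 < δ ∨ (δ < 0 ∧ 4 * β < (-α) ^ 2) ∨ (δ = 0 ∧ 4 * β ≤ (-α) ^ 2) := by
      rw [neg_sq]
      exact h.resolve_left (fun h => h hγ)
    obtain ⟨A, h1, h2⟩ := M4_zero (-α) β δ h'
    rw [neg_neg, neg_zero, ← hγ] at h2
    exact ⟨A, h1, h2⟩
  · obtain ⟨A, h1, h2⟩ := M4_neg (-α) β (-γ) δ (by linarith)
    rw [neg_neg, neg_neg] at h2
    exact ⟨A, h1, h2⟩

theorem realize_T2 (u v : ℝ) :
    ∃ A : Matrix (Fin 2) (Fin 2) ℝ, Realizes A T2 ∧ A.charpoly = X ^ 2 + C u * X + C v := by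
  have hu0 := abs_nonneg u
  have hv0 := abs_nonneg v
  have hu1 := neg_abs_le u
  have hu2 := le_abs_self u
  have hv1 := neg_abs_le v
  set d : ℝ := |u| + |v| + 1 with hd
  set a : ℝ := d - u with ha
  have hd1 : 1 ≤ d := by rw [hd]; linarith
  have ha1 : |v| + 1 ≤ a := by rw [ha, hd]; linarith
  have hc : 0 < v + a * d := by nlinarith
  refine ⟨!![a, 1; -(v + a * d), -d], ?_, ?_⟩
  · intro i j
    fin_cases i <;> fin_cases j
    · exact sign_pos (by linarith : 0 < a)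
    · exact sign_pos (one_pos : (0 : ℝ) < 1)
    · exact sign_neg (neg_neg_of_pos hc)
    · exact sign_neg (by linarith : -d < 0)
  · rw [charpoly2]
    have h1 : -(a + -d) = u := by rw [ha]; ring
    have h2 : a * -d - 1 * -(v + a * d) = v := by ring
    rw [h1, h2]

/-- Two realizations put together. -/
theorem realize_sum {A : Matrix (Fin 4) (Fin 4) ℝ} {B : Matrix (Fin 2) (Fin 2) ℝ}
    (hA : Realizes A M4) (hB : Realizes B T2) :
    ∃ D : Matrix (Fin 6) (Fin 6) ℝ, Realizes D S ∧ D.charpoly = A.charpoly * B.charpoly := by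
  let e : Fin 4 ⊕ Fin 2 ≃ Fin 6 := finSumFinEquiv
  refine ⟨Matrix.reindex e e (Matrix.fromBlocks A 0 0 B), ?_, ?_⟩
  · intro i j
    obtain ⟨i, rfl⟩ := e.surjective i
    obtain ⟨j, rfl⟩ := e.surjective j
    rw [Matrix.reindex_apply, Matrix.submatrix_apply, Equiv.symm_apply_apply,
      Equiv.symm_apply_apply]
    rcases i with i | i <;> rcases j with j | j
    · rw [Matrix.fromBlocks_apply₁₁, hA i j]
      fin_cases i <;> fin_cases j <;> rfl
    · rw [Matrix.fromBlocks_apply₁₂, Matrix.zero_apply, sign_zero]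
      fin_cases i <;> fin_cases j <;> rfl
    · rw [Matrix.fromBlocks_apply₂₁, Matrix.zero_apply, sign_zero]
      fin_cases i <;> fin_cases j <;> rfl
    · rw [Matrix.fromBlocks_apply₂₂, hB i j]
      fin_cases i <;> fin_cases j <;> rfl
  · rw [Matrix.charpoly_reindex, Matrix.charpoly_fromBlocks_zero₁₂]

/-- The product of two monic quadratics. -/
theorem mul_quad (u₁ v₁ u₂ v₂ : ℝ) :
    (X ^ 2 + C u₁ * X + C v₁) * (X ^ 2 + C u₂ * X + C v₂) =
      X ^ 4 + C (u₁ + u₂) * X ^ 3 + C (v₁ + v₂ + u₁ * u₂) * X ^ 2 +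
        C (u₁ * v₂ + u₂ * v₁) * X + C (v₁ * v₂) := by
  simp only [C_add, C_mul]
  ring

/-- The coefficients of a quartic that `M₄` realizes. -/
def Good (α β γ δ : ℝ) : Prop :=
  γ ≠ 0 ∨ 0 < δ ∨ (δ < 0 ∧ 4 * β < α ^ 2) ∨ (δ = 0 ∧ 4 * β ≤ α ^ 2)

/-- The same for the product of two quadratics. -/
def GoodPair (u₁ v₁ u₂ v₂ : ℝ) : Prop :=
  Good (u₁ + u₂) (v₁ + v₂ + u₁ * u₂) (u₁ * v₂ + u₂ * v₁) (v₁ * v₂)

theorem bad_pair {u₁ v₁ u₂ v₂ : ℝ} (h : ¬ GoodPair u₁ v₁ u₂ v₂) :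
    u₁ * v₂ + u₂ * v₁ = 0 ∧ v₁ * v₂ ≤ 0 ∧
      (v₁ * v₂ = 0 → (u₁ + u₂) ^ 2 < 4 * (v₁ + v₂ + u₁ * u₂)) := by
  unfold GoodPair Good at h
  push Not at h
  obtain ⟨h1, h2, h3, h4⟩ := h
  exact ⟨h1, h2, h4⟩

/-- Of the three products of two of three quadratics one is good. -/
theorem exists_good (u₁ v₁ u₂ v₂ u₃ v₃ : ℝ) :
    GoodPair u₁ v₁ u₂ v₂ ∨ GoodPair u₁ v₁ u₃ v₃ ∨ GoodPair u₂ v₂ u₃ v₃ := by
  -- the case in which the first quadratic has the root `0`
  have key : ∀ u₁ u₂ v₂ u₃ v₃ : ℝ, ¬ GoodPair u₁ 0 u₂ v₂ → ¬ GoodPair u₁ 0 u₃ v₃ →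
      ¬ GoodPair u₂ v₂ u₃ v₃ → False := by
    intro u₁ u₂ v₂ u₃ v₃ h12 h13 h23
    obtain ⟨a1, a2, a3⟩ := bad_pair h12
    obtain ⟨b1, b2, b3⟩ := bad_pair h13
    obtain ⟨c1, c2, c3⟩ := bad_pair h23
    have a4 := a3 (by ring)
    have b4 := b3 (by ring)
    by_cases hu : u₁ = 0
    · subst hu
      have hv2 : 0 < v₂ := by nlinarith [sq_nonneg u₂]
      have hv3 : 0 < v₃ := by nlinarith [sq_nonneg u₃]
      have := mul_pos hv2 hv3
      linarith
    · have hv2 : v₂ = 0 := by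
        have : u₁ * v₂ = 0 := by linarith
        exact (mul_eq_zero.mp this).resolve_left hu
      subst hv2
      nlinarith [sq_nonneg (u₁ - u₂)]
  by_contra hcon
  push Not at hcon
  obtain ⟨h12, h13, h23⟩ := hcon
  have symm : ∀ {u₁ v₁ u₂ v₂ : ℝ}, ¬ GoodPair u₁ v₁ u₂ v₂ → ¬ GoodPair u₂ v₂ u₁ v₁ := by
    intro u₁ v₁ u₂ v₂ h h'
    apply h
    unfold GoodPair at h' ⊢
    convert h' using 1 <;> ring
  obtain ⟨a1, a2, a3⟩ := bad_pair h12
  obtain ⟨b1, b2, b3⟩ := bad_pair h13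
  obtain ⟨c1, c2, c3⟩ := bad_pair h23
  by_cases hv1 : v₁ = 0
  · subst hv1
    exact key u₁ u₂ v₂ u₃ v₃ h12 h13 h23
  by_cases hv2 : v₂ = 0
  · subst hv2
    exact key u₂ u₁ v₁ u₃ v₃ (symm h12) h23 h13
  by_cases hv3 : v₃ = 0
  · subst hv3
    exact key u₃ u₁ v₁ u₂ v₂ (symm h13) (symm h23) h12
  have h1 : v₁ * v₂ < 0 := lt_of_le_of_ne a2 (mul_ne_zero hv1 hv2)
  have h2 : v₁ * v₃ < 0 := lt_of_le_of_ne b2 (mul_ne_zero hv1 hv3)
  have h3 : v₂ * v₃ < 0 := lt_of_le_of_ne c2 (mul_ne_zero hv2 hv3)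
  have h4 : 0 < (v₁ * v₂) * (v₁ * v₃) := mul_pos_of_neg_of_neg h1 h2
  have h5 : (v₁ * v₂) * (v₁ * v₃) * (v₂ * v₃) < 0 := mul_neg_of_pos_of_neg h4 h3
  nlinarith [sq_nonneg (v₁ * v₂ * v₃)]

theorem realize_product {u₁ v₁ u₂ v₂ : ℝ} (u₃ v₃ : ℝ) (h : GoodPair u₁ v₁ u₂ v₂) :
    ∃ D : Matrix (Fin 6) (Fin 6) ℝ, Realizes D S ∧ D.charpoly =
      (X ^ 2 + C u₁ * X + C v₁) * (X ^ 2 + C u₂ * X + C v₂) * (X ^ 2 + C u₃ * X + C v₃) := by
  obtain ⟨A, hA, hA'⟩ := realize_M4 _ _ _ _ h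
  obtain ⟨B, hB, hB'⟩ := realize_T2 u₃ v₃
  obtain ⟨D, hD, hD'⟩ := realize_sum hA hB
  refine ⟨D, hD, ?_⟩
  rw [hD', hA', hB', mul_quad]

theorem S_arbitrary : SpectrallyArbitrary S := by
  intro p hp hdeg
  have hp6 : IsMonicOfDegree p (4 + 2) := ⟨hdeg, hp⟩
  obtain ⟨f₁, g, hf₁, hg, rfl⟩ := hp6.eq_isMonicOfDegree_two_mul_isMonicOfDegree
  have hg4 : IsMonicOfDegree g (2 + 2) := hg
  obtain ⟨f₂, f₃, hf₂, hf₃, rfl⟩ := hg4.eq_isMonicOfDegree_two_mul_isMonicOfDegree
  obtain ⟨u₁, v₁, rfl⟩ := isMonicOfDegree_two_iff.mp hf₁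
  obtain ⟨u₂, v₂, rfl⟩ := isMonicOfDegree_two_iff.mp hf₂
  obtain ⟨u₃, v₃, rfl⟩ := isMonicOfDegree_two_iff.mp hf₃
  rcases exists_good u₁ v₁ u₂ v₂ u₃ v₃ with h | h | h
  · obtain ⟨D, h1, h2⟩ := realize_product u₃ v₃ h
    exact ⟨D, h1, by rw [h2]; ring⟩
  · obtain ⟨D, h1, h2⟩ := realize_product u₂ v₂ h
    exact ⟨D, h1, by rw [h2]; ring⟩
  · obtain ⟨D, h1, h2⟩ := realize_product u₁ v₁ h
    exact ⟨D, h1, by rw [h2]; ring⟩

theorem S'_super : IsSuperpattern S' S := by
  intro i j hij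
  have h : (i = 0 ∧ j = 3) ∨ S' i j = S i j := by
    fin_cases i <;> fin_cases j <;> simp [S, S']
  rcases h with ⟨rfl, rfl⟩ | h
  · exact absurd rfl hij
  · exact h

/-- The key inequality: no realization of the order 4 part of `S'` has characteristic polynomial
`x⁴` or `x⁴ + x²`. -/
theorem key_ineq {a b c d e f g h k z β : ℝ} (ha : 0 < a) (hb : 0 < b) (hf : 0 < f) (hg : 0 < g) (hh : 0 < h) (hk : 0 < k) (hz : 0 < z) (hβ : 0 ≤ β)
    (h1 : a - e = 0) (h2 : b * d - a * e - z * h = β)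
    (h3 : g * (c * h - f * k) + z * (e * h - d * k) = 0)
    (h4 : g * (f * (b * h - a * k) + c * (d * k - e * h)) = 0) : False := by
  have he : e = a := by linarith
  subst he
  have h4' : f * (b * h - e * k) + c * (d * k - e * h) = 0 :=
    (mul_eq_zero.mp h4).resolve_left hg.ne'
  have hbd : e * e < b * d := by nlinarith [mul_pos hz hh]
  -- the form is positive
  have hform : 0 < b * h ^ 2 - 2 * e * h * k + d * k ^ 2 := by
    have h5 : 0 < b * (b * h ^ 2 - 2 * e * h * k + d * k ^ 2) := by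
      have : b * (b * h ^ 2 - 2 * e * h * k + d * k ^ 2) =
          (b * h - e * k) ^ 2 + (b * d - e * e) * k ^ 2 := by ring
      rw [this]
      have := mul_pos (sub_pos.mpr hbd) (pow_pos hk 2)
      nlinarith [sq_nonneg (b * h - e * k)]
    exact (pos_iff_pos_of_mul_pos h5).mp hb
  have h6 : g * f * (b * h ^ 2 - 2 * e * h * k + d * k ^ 2) + z * (d * k - e * h) ^ 2 = 0 := by
    have h7 : g * f * (b * h ^ 2 - 2 * e * h * k + d * k ^ 2) + z * (d * k - e * h) ^ 2 =
        g * h * (f * (b * h - e * k) + c * (d * k - e * h)) -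
          (d * k - e * h) * (g * (c * h - f * k) + z * (e * h - d * k)) := by ring
    rw [h7, h4', h3]
    ring
  have h8 : 0 < g * f * (b * h ^ 2 - 2 * e * h * k + d * k ^ 2) := by positivity
  have h9 : 0 ≤ z * (d * k - e * h) ^ 2 := by positivity
  linarith

/-- The coefficients of a product that equals `x⁶ + x⁴`. -/
theorem coeffs {α β γ δ u v : ℝ}
    (h : (X ^ 4 + C α * X ^ 3 + C β * X ^ 2 + C γ * X + C δ) * (X ^ 2 + C u * X + C v) =
      (X ^ 6 + X ^ 4 : ℝ[X])) : α = 0 ∧ 0 ≤ β ∧ γ = 0 ∧ δ = 0 := by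
  have hexp : (X ^ 4 + C α * X ^ 3 + C β * X ^ 2 + C γ * X + C δ) * (X ^ 2 + C u * X + C v) =
      X ^ 6 + C (α + u) * X ^ 5 + C (β + α * u + v) * X ^ 4 + C (γ + β * u + α * v) * X ^ 3 +
        C (δ + γ * u + β * v) * X ^ 2 + C (δ * u + γ * v) * X + C (δ * v) := by
    simp only [C_add, C_mul]
    ring
  rw [hexp] at h
  have c0 := congrArg (fun p => Polynomial.coeff p 0) h
  have c1 := congrArg (fun p => Polynomial.coeff p 1) h
  have c2 := congrArg (fun p => Polynomial.coeff p 2) h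
  have c3 := congrArg (fun p => Polynomial.coeff p 3) h
  have c4 := congrArg (fun p => Polynomial.coeff p 4) h
  have c5 := congrArg (fun p => Polynomial.coeff p 5) h
  simp only [coeff_add, coeff_X_pow, coeff_C_mul, coeff_X, coeff_C] at c0 c1 c2 c3 c4 c5
  norm_num at c0 c1 c2 c3 c4 c5
  have hu : u = -α := by linarith
  subst hu
  have hδ : δ = 0 := by
    rcases c0 with h0 | h0
    · exact h0
    · subst h0
      by_contra hne
      have hα : α = 0 := by
        have : δ * α = 0 := by linarith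
        exact (mul_eq_zero.mp this).resolve_left hne
      subst hα
      apply hne
      linarith
  subst hδ
  have hγ : γ = 0 := by
    by_contra hne
    have hv : v = 0 := by
      have : γ * v = 0 := by linarith
      exact (mul_eq_zero.mp this).resolve_left hne
    subst hv
    have hα : α = 0 := by
      have : γ * α = 0 := by linarith
      exact (mul_eq_zero.mp this).resolve_left hne
    subst hα
    apply hne
    linarith
  subst hγ
  have hβv : β * v = 0 := by linarith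
  rcases mul_eq_zero.mp hβv with hβ | hv
  · subst hβ
    have hαv : α * v = 0 := by linarith
    rcases mul_eq_zero.mp hαv with hα | hv
    · exact ⟨hα, le_refl _, rfl, rfl⟩
    · subst hv
      nlinarith [sq_nonneg α]
  · subst hv
    have hβα : β * α = 0 := by linarith
    rcases mul_eq_zero.mp hβα with hβ | hα
    · subst hβ
      nlinarith [sq_nonneg α]
    · subst hα
      exact ⟨rfl, by linarith, rfl, rfl⟩

/-- The first four indices. -/
def l4 (i : Fin 4) : Fin 6 := Fin.castAdd 2 i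

/-- The last two indices. -/
def r2 (i : Fin 2) : Fin 6 := Fin.natAdd 4 i

/-- The characteristic polynomial of a block triangular matrix of order `6 = 4 + 2`. -/
theorem charpoly_split (A : Matrix (Fin 6) (Fin 6) ℝ) (h : ∀ i j, A (l4 i) (r2 j) = 0) :
    A.charpoly = (A.submatrix l4 l4).charpoly * (A.submatrix r2 r2).charpoly := by
  let e : Fin 4 ⊕ Fin 2 ≃ Fin 6 := finSumFinEquiv
  have h1 : A = Matrix.reindex e e (Matrix.fromBlocks
      (A.submatrix l4 l4) 0 (A.submatrix r2 l4) (A.submatrix r2 r2)) := by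
    ext i j
    obtain ⟨i, rfl⟩ := e.surjective i
    obtain ⟨j, rfl⟩ := e.surjective j
    rw [Matrix.reindex_apply, Matrix.submatrix_apply, Equiv.symm_apply_apply,
      Equiv.symm_apply_apply]
    rcases i with i | i <;> rcases j with j | j
    · rfl
    · exact h i j
    · rfl
    · rfl
  conv_lhs => rw [h1]
  rw [Matrix.charpoly_reindex, Matrix.charpoly_fromBlocks_zero₁₂]

theorem eta4 (A : Matrix (Fin 4) (Fin 4) ℝ) :
    A = !![A 0 0, A 0 1, A 0 2, A 0 3; A 1 0, A 1 1, A 1 2, A 1 3;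
      A 2 0, A 2 1, A 2 2, A 2 3; A 3 0, A 3 1, A 3 2, A 3 3] :=
  (Matrix.etaExpand_eq A).symm

theorem S'_not : ¬ SpectrallyArbitrary S' := by
  intro hS
  have hmon : IsMonicOfDegree (X ^ 6 + X ^ 4 : ℝ[X]) 6 :=
    (isMonicOfDegree_X_pow ℝ 6).add_right (by rw [natDegree_X_pow]; norm_num)
  obtain ⟨A, hA, hchar⟩ := hS _ hmon.monic hmon.natDegree_eq
  have pos : ∀ i j, S' i j = 1 → 0 < A i j := fun i j h => sign_eq_one_iff.mp ((hA i j).trans h)
  have neg : ∀ i j, S' i j = -1 → ∃ x, 0 < x ∧ A i j = -x := fun i j h =>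
    ⟨-A i j, neg_pos.mpr (sign_eq_neg_one_iff.mp ((hA i j).trans h)), (neg_neg _).symm⟩
  have zero : ∀ i j, S' i j = 0 → A i j = 0 := fun i j h => sign_eq_zero_iff.mp ((hA i j).trans h)
  have hsplit := charpoly_split A (by
    intro i j
    apply zero
    fin_cases i <;> fin_cases j <;> rfl)
  obtain ⟨c, hc, hc'⟩ := neg 0 2 rfl
  obtain ⟨d, hd, hd'⟩ := neg 1 0 rfl
  obtain ⟨e, he, he'⟩ := neg 1 1 rfl
  obtain ⟨g, hg, hg'⟩ := neg 2 3 rfl
  have hB : A.submatrix l4 l4 =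
      !![A 0 0, A 0 1, -c, A 0 3; -d, -e, A 1 2, 0; 0, 0, 0, -g; A 3 0, A 3 1, 0, 0] := by
    rw [eta4 (A.submatrix l4 l4), ← hc', ← hd', ← he', ← hg']
    have z1 := zero 1 3 rfl
    have z2 := zero 2 0 rfl
    have z3 := zero 2 1 rfl
    have z4 := zero 2 2 rfl
    have z5 := zero 3 2 rfl
    have z6 := zero 3 3 rfl
    conv_rhs => rw [← z1]
    have k1 : A.submatrix l4 l4 1 3 = A 1 3 := rfl
    have k2 : A.submatrix l4 l4 2 0 = A 1 3 := z2.trans z1.symm
    have k3 : A.submatrix l4 l4 2 1 = A 1 3 := z3.trans z1.symm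
    have k4 : A.submatrix l4 l4 2 2 = A 1 3 := z4.trans z1.symm
    have k5 : A.submatrix l4 l4 3 2 = A 1 3 := z5.trans z1.symm
    have k6 : A.submatrix l4 l4 3 3 = A 1 3 := z6.trans z1.symm
    rw [k1, k2, k3, k4, k5, k6]
    rfl
  have hfac : (A.submatrix l4 l4).charpoly *
      (A.submatrix r2 r2).charpoly = X ^ 6 + X ^ 4 := by
    rw [← hsplit, hchar]
  rw [hB, charpoly4, Matrix.eta_fin_two (A.submatrix r2 r2),
    charpoly2] at hfac
  obtain ⟨h1, h2, h3, h4⟩ := coeffs hfac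
  exact key_ineq (pos 0 0 rfl) (pos 0 1 rfl) (pos 1 2 rfl) hg (pos 3 0 rfl)
    (pos 3 1 rfl) (pos 0 3 rfl) h2 (by linarith) rfl (by linarith) h4

/-- **Main theorem.** The sign pattern `S = M₄ ⊕ T₂` of order 6 is spectrally arbitrary, and its
superpattern `S'`, which differs from it in one entry, is not. -/
theorem result : SpectrallyArbitrary S ∧ IsSuperpattern S' S ∧ ¬ SpectrallyArbitrary S' :=
  ⟨S_arbitrary, S'_super, S'_not⟩

end Pool.Agent.Results.MP_557f7f_co.SpectralSuperpattern
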